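import Pool.Agent.N522.SK.Main

/-!
# MP_870c49_nt: Q1 for a singular K3 surface is the one-dimensionality of motivic cohomology
-/

open Pool.Agent.N522.SK

/-- For every singular K3 surface `X` over `ℚ`, Q1 for `X` holds if and only if
`H^3_M(X, ℚ(4))_tr` has dimension one over `ℚ`; and Q1 for `X` depends only on the Chow motive
`h^2_tr(X)`. -/
theorem Pool.Agent.Results.MP_870c49_nt.OneDimensionality.result :
    ∀ T : Theory, Facts T →
      (∀ X : T.Sur, Q1 X ↔ OneDim X) ∧ (∀ X Y : T.Sur, T.Iso X Y → (Q1 X ↔ Q1 Y)) :=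
  fun _ F => ⟨q1_iff F, fun X Y f => q1_iso F X Y f⟩
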